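import Mathlib
import Pool.Agent.Helper160.NevFinal

set_option autoImplicit false

namespace Pool.Agent.Results.MP_78803a_an.AboveLPlusOne

open Metric Real Set Filter Topology
open scoped ENNReal

noncomputable section

/-- The multiplicity of `z` as a pole of `f` (zero if `z` is not a pole). -/
def poleMult (f : ℂ → ℂ) (z : ℂ) : ℤ := max 0 (-(meromorphicOrderAt f z).untop₀)

/-- The integrated counting function of poles `N(r, f)`: the sum of
`poleMult f z * log (r / |z|)` over `0 < |z| ≤ r`, plus `poleMult f 0 * log r`. -/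
def countPoles (f : ℂ → ℂ) (r : ℝ) : ℝ :=
  (∑ᶠ z ∈ closedBall (0 : ℂ) r, (poleMult f z : ℝ) * Real.log (r * ‖z‖⁻¹)) +
    (poleMult f 0 : ℝ) * Real.log r

/-- The Nevanlinna characteristic `T(r, f) = m(r, f) + N(r, f)`, where `m(r, f)` is the average
of `log⁺ |f|` over the circle `|z| = r`. -/
def charT (f : ℂ → ℂ) (r : ℝ) : ℝ :=
  circleAverage (fun z => log⁺ ‖f z‖) 0 r + countPoles f r

/-- `α(f)`, the upper limit of `T(r, f) / (-log (1 - r))` as `r → 1⁻`. -/
def growthExp (f : ℂ → ℂ) : ℝ≥0∞ :=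
  limsup (fun r : ℝ => ENNReal.ofReal (charT f r / (-Real.log (1 - r)))) (𝓝[<] 1)

/-- `g` is not constant on the unit disc: no `g - c` vanishes identically (off a discrete set). -/
def Nonconst (g : ℂ → ℂ) : Prop :=
  ∀ c : ℂ, ∃ z ∈ ball (0 : ℂ) 1, meromorphicOrderAt (fun z => g z - c) z ≠ ⊤

/-- `f` is admissible: non-constant and meromorphic in the unit disc, `α(f) < ∞`, with only
finitely many zeros and poles in the unit disc. -/
def Admissible (f : ℂ → ℂ) : Prop :=
  MeromorphicOn f (ball 0 1) ∧ Nonconst f ∧ growthExp f ≠ ⊤ ∧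
    {z | z ∈ ball (0 : ℂ) 1 ∧ meromorphicOrderAt f z ≠ 0}.Finite

/-- The coefficients `a 0, …, a l` are meromorphic in the unit disc, small relative to `f`, and
`a l` does not vanish identically. -/
def SmallCoeffs (l : ℕ) (a : ℕ → ℂ → ℂ) (f : ℂ → ℂ) : Prop :=
  (∀ ν ≤ l, MeromorphicOn (a ν) (ball 0 1) ∧ charT (a ν) =o[𝓝[<] 1] charT f) ∧
    ∃ z ∈ ball (0 : ℂ) 1, meromorphicOrderAt (a l) z ≠ ⊤

/-- The linear differential polynomial `Ψ = ∑_{ν ≤ l} a_ν f^(ν)`. -/
def diffPoly (l : ℕ) (a : ℕ → ℂ → ℂ) (f : ℂ → ℂ) (z : ℂ) : ℂ :=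
  ∑ ν ∈ Finset.range (l + 1), a ν z * iteratedDeriv ν f z

/-- Property (V): for every `w ≠ 0` the equation `g(z) = w` has infinitely many solutions in the
unit disc (the solutions are the zeros of the meromorphic function `g - w`). -/
def PropertyV (g : ℂ → ℂ) : Prop :=
  ∀ w : ℂ, w ≠ 0 →
    {z | z ∈ ball (0 : ℂ) 1 ∧ 0 < meromorphicOrderAt (fun z => g z - w) z}.Infinite

/-- The statement of the question at `α₀`: for every admissible `f` with `α(f) = α₀`, every
non-constant admissible linear differential polynomial of order `l` in `f` has property (V). -/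
def HoldsAt (l : ℕ) (α₀ : ℝ≥0∞) : Prop :=
  ∀ f : ℂ → ℂ, Admissible f → growthExp f = α₀ →
    ∀ a : ℕ → ℂ → ℂ, SmallCoeffs l a f → Nonconst (diffPoly l a f) → PropertyV (diffPoly l a f)

/-- Property (V) holds at every `α₀ > l + 1`. -/
theorem result : ∀ (l : ℕ) (α₀ : ℝ≥0∞), (l : ℝ≥0∞) + 1 < α₀ → HoldsAt l α₀ := by
  rintro l α₀ hα f ⟨hf, hfc, hfin, hzp⟩ rfl a ⟨ha, -⟩ hΨ w hw
  refine Pool.Agent.Helper160.Nev.final hf ?_ hzp l hfin hα a
    (fun i hi => (ha i ?_).1) (fun i hi => (ha i ?_).2) hΨ hw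
  · obtain ⟨z, hz, h⟩ := hfc 0
    refine ⟨z, hz, ?_⟩
    simpa using h
  · rw [Finset.mem_range] at hi; omega
  · rw [Finset.mem_range] at hi; omega

end

end Pool.Agent.Results.MP_78803a_an.AboveLPlusOne
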